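import Mathlib
import Pool.Agent.Y339.IPR.Real

/-! # MP_68293e_co: image partition regularity of `M(a)` for all sequences of nonzero reals

For every finite sequence `a` of nonzero real numbers the matrix `M(a)` is image partition regular
over the positive integers if and only if `∑ a_i = 1`, or the last term is `1` and either all terms
are rational and `∑ a_i = 0`, or all terms are `1`. -/

set_option autoImplicit false

namespace Pool.Agent.Results.MP_68293e_co.RealSequences

open Pool.Agent.Y339.IPR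

/-- The `ω × ω` real matrix `A` (row `i` is the finitely supported function `A i`) is image
partition regular over the positive integers: for every finite colouring of the positive integers
there is a vector `x` with positive integer entries such that all entries of `A x` are positive
integers of the same colour. -/
def ImagePartitionRegular (A : ℕ → (ℕ →₀ ℝ)) : Prop :=
  ∀ (r : ℕ) (c : ℕ → Fin r), ∃ x : ℕ → ℕ, (∀ n, 0 < x n) ∧ ∃ j : Fin r, ∀ i : ℕ, ∃ y : ℕ,
    0 < y ∧ ((A i).sum fun n e => e * (x n : ℝ)) = (y : ℝ) ∧ c y = j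

/-- The rows of `M(a)`: the rows with a single entry `1`, and the rows whose nonzero entries are
`a 0, …, a (k - 1)` in this order. -/
def Rows {k : ℕ} (a : Fin k → ℝ) : Set (ℕ →₀ ℝ) :=
  {ρ | ∃ n : ℕ, ρ = Finsupp.single n 1} ∪
  {ρ | ∃ ν : Fin k → ℕ, StrictMono ν ∧ ρ = ∑ i, Finsupp.single (ν i) (a i)}

theorem row_dot {k : ℕ} (a : Fin k → ℝ) (ν : Fin k → ℕ) (x : ℕ → ℕ) :
    ((∑ i, Finsupp.single (ν i) (a i) : ℕ →₀ ℝ).sum fun n e => e * (x n : ℝ))
      = ∑ i, a i * (x (ν i) : ℝ) := by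
  rw [← Finsupp.sum_finsetSum_index]
  · apply Finset.sum_congr rfl
    intro i _
    rw [Finsupp.sum_single_index]
    ring
  · intro n; ring
  · intro n e f; ring

theorem ipr_iff {k : ℕ} (a : Fin k → ℝ) (A : ℕ → (ℕ →₀ ℝ)) (hA : Set.range A = Rows a) :
    ImagePartitionRegular A ↔ RIPR a := by
  constructor
  · intro h κ _ c
    obtain ⟨x, hx, j, hj⟩ := h (Nat.card κ) (fun y => Finite.equivFin κ (c y))
    refine ⟨x, hx, (Finite.equivFin κ).symm j, ?_, ?_⟩
    · intro n
      have hmem : Finsupp.single n (1 : ℝ) ∈ Set.range A := by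
        rw [hA]; exact Or.inl ⟨n, rfl⟩
      obtain ⟨i, hi⟩ := hmem
      obtain ⟨y, _, hy2, hy3⟩ := hj i
      rw [hi, Finsupp.sum_single_index (by ring)] at hy2
      have : y = x n := by
        have : (y : ℝ) = x n := by rw [← hy2]; ring
        exact_mod_cast this
      rw [← this, ← hy3]; simp
    · intro ν hν
      have hmem : (∑ i, Finsupp.single (ν i) (a i) : ℕ →₀ ℝ) ∈ Set.range A := by
        rw [hA]; exact Or.inr ⟨ν, hν, rfl⟩
      obtain ⟨i, hi⟩ := hmem
      obtain ⟨y, hy1, hy2, hy3⟩ := hj i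
      rw [hi, row_dot] at hy2
      exact ⟨y, hy1, hy2, by rw [← hy3]; simp⟩
  · intro h r c
    obtain ⟨x, hx, j, hj1, hj2⟩ := h (Fin r) c
    refine ⟨x, hx, j, ?_⟩
    intro i
    have hmem : A i ∈ Rows a := by rw [← hA]; exact ⟨i, rfl⟩
    rcases hmem with ⟨n, hn⟩ | ⟨ν, hν, hρ⟩
    · refine ⟨x n, hx n, ?_, hj1 n⟩
      rw [hn, Finsupp.sum_single_index (by ring)]
      ring
    · obtain ⟨y, hy1, hy2, hy3⟩ := hj2 ν hν
      refine ⟨y, hy1, ?_, hy3⟩
      rw [hρ, row_dot]
      exact hy2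

theorem exists_matrix {k : ℕ} (a : Fin k → ℝ) : ∃ A : ℕ → (ℕ →₀ ℝ), Set.range A = Rows a := by
  have hne : (Rows a).Nonempty := ⟨Finsupp.single 0 1, Or.inl ⟨0, rfl⟩⟩
  have hcount : (Rows a).Countable := by
    apply Set.Countable.union
    · refine (Set.countable_range fun n : ℕ => Finsupp.single n (1 : ℝ)).mono ?_
      rintro ρ ⟨n, rfl⟩
      exact ⟨n, rfl⟩
    · refine (Set.countable_range fun ν : Fin k → ℕ =>
        (∑ i, Finsupp.single (ν i) (a i) : ℕ →₀ ℝ)).mono ?_
      rintro ρ ⟨ν, _, rfl⟩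
      exact ⟨ν, rfl⟩
  obtain ⟨A, hA⟩ := hcount.exists_eq_range hne
  exact ⟨A, hA.symm⟩

/-- **Characterization for all sequences of nonzero real numbers.** There is an `ω × ω` matrix whose
rows are those of `M(a)`, and every such matrix is image partition regular over the positive
integers if and only if `∑ a_i = 1`, or `k ≥ 1`, `a_{k-1} = 1` and (`∑ a_i = 0` and all `a_i` are
rational, or all `a_i` are `1`). -/
theorem result (k : ℕ) (a : Fin k → ℝ) (ha : ∀ i, a i ≠ 0) :
    (∃ A : ℕ → (ℕ →₀ ℝ), Set.range A = Rows a) ∧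
    ∀ A : ℕ → (ℕ →₀ ℝ), Set.range A = Rows a →
      (ImagePartitionRegular A ↔
        (∑ i, a i = 1 ∨ ∃ h : 0 < k, a ⟨k - 1, Nat.sub_lt h one_pos⟩ = 1 ∧
          ((∑ i, a i = 0 ∧ ∀ i, ∃ q : ℚ, a i = q) ∨ ∀ i, a i = 1))) := by
  refine ⟨exists_matrix a, fun A hA => ?_⟩
  rw [ipr_iff a A hA, real_char a ha]
  constructor
  · rintro (h | ⟨hq, hk, hl, h | h⟩)
    · exact Or.inl h
    · exact Or.inr ⟨hk, hl, Or.inl ⟨h, hq⟩⟩
    · exact Or.inr ⟨hk, hl, Or.inr h⟩
  · rintro (h | ⟨hk, hl, ⟨h, hq⟩ | h⟩)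
    · exact Or.inl h
    · exact Or.inr ⟨hq, hk, hl, Or.inl h⟩
    · exact Or.inr ⟨fun i => ⟨1, by rw [h i]; norm_num⟩, hk, hl, Or.inr h⟩

end Pool.Agent.Results.MP_68293e_co.RealSequences
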